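import Mathlib

open Finset Real

namespace Pool.Agent.H620Z.Ent

variable {Ω : Type} [Fintype Ω]

open Classical in
/-- probability of the class of `ω` -/
noncomputable def pr (p : Ω → ℝ) (r : Setoid Ω) (ω : Ω) : ℝ := ∑ ω', if r ω' ω then p ω' else 0

/-- Shannon entropy of a partition -/
noncomputable def H (p : Ω → ℝ) (r : Setoid Ω) : ℝ := -∑ ω, p ω * log (pr p r ω)

/-- probability vector -/
structure Prob (p : Ω → ℝ) : Prop where
  nn : ∀ ω, 0 ≤ p ω
  one : ∑ ω, p ω = 1

variable {p : Ω → ℝ}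

theorem pr_nonneg (hp : Prob p) (r : Setoid Ω) (ω : Ω) : 0 ≤ pr p r ω :=
  sum_nonneg fun ω' _ => by split_ifs; exacts [hp.nn _, le_rfl]

theorem le_pr (hp : Prob p) (r : Setoid Ω) (ω : Ω) : p ω ≤ pr p r ω := by
  classical
  have := single_le_sum (f := fun ω' => if r ω' ω then p ω' else 0)
    (fun ω' _ => by split_ifs; exacts [hp.nn _, le_rfl]) (mem_univ ω)
  simp only [r.refl' ω, if_true] at this
  unfold pr; convert this

theorem pr_congr {r : Setoid Ω} {ω ω' : Ω} (h : r ω ω') : pr p r ω = pr p r ω' := by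
  classical
  unfold pr
  refine sum_congr rfl fun x _ => ?_
  have : r x ω ↔ r x ω' := ⟨fun h1 => r.trans' h1 h, fun h1 => r.trans' h1 (r.symm' h)⟩
  exact if_congr this rfl rfl

theorem pr_pos (hp : Prob p) (r : Setoid Ω) {ω : Ω} (h : p ω ≠ 0) : 0 < pr p r ω :=
  lt_of_lt_of_le (lt_of_le_of_ne (hp.nn ω) h.symm) (le_pr hp r ω)

open Classical in
theorem submod_aux (hp : Prob p) {u v t : Setoid Ω} (hu : u ≤ t) (hv : v ≤ t) :
    ∑ ω, p ω * (pr p u ω * pr p v ω / (pr p (u ⊓ v) ω * pr p t ω)) ≤ 1 := by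
  have e1 : ∀ ω, p ω * (pr p u ω * pr p v ω / (pr p (u ⊓ v) ω * pr p t ω)) =
      ∑ α, ∑ β, p α * p β *
        (if u α ω ∧ v β ω then p ω / (pr p (u ⊓ v) ω * pr p t ω) else 0) := by
    intro ω
    have : pr p u ω * pr p v ω = ∑ α, ∑ β, (if u α ω ∧ v β ω then p α * p β else 0) := by
      unfold pr
      rw [sum_mul_sum]
      refine sum_congr rfl fun α _ => sum_congr rfl fun β _ => ?_
      by_cases h1 : u α ω <;> by_cases h2 : v β ω <;> simp [h1, h2]
    rw [this, sum_div, mul_sum]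
    refine sum_congr rfl fun α _ => ?_
    rw [sum_div, mul_sum]
    refine sum_congr rfl fun β _ => ?_
    split_ifs <;> ring
  simp only [e1]
  rw [sum_comm]
  have e2 : ∀ α β, ∑ ω, (if u α ω ∧ v β ω then p ω / (pr p (u ⊓ v) ω * pr p t ω) else 0) ≤
      if t β α then 1 / pr p t α else 0 := by
    intro α β
    by_cases hex : ∃ ω0, u α ω0 ∧ v β ω0
    · obtain ⟨ω0, h1, h2⟩ := hex
      have htt : t β α := t.trans' (hv h2) (t.symm' (hu h1))
      rw [if_pos htt]
      have e3 : ∀ ω, (if u α ω ∧ v β ω then p ω / (pr p (u ⊓ v) ω * pr p t ω) else 0) =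
          (if (u ⊓ v) ω ω0 then p ω else 0) / (pr p (u ⊓ v) ω0 * pr p t α) := by
        intro ω
        have hiff : (u α ω ∧ v β ω) ↔ (u ⊓ v) ω ω0 := by
          exact ⟨fun h => ⟨u.trans' (u.symm' h.1) h1, v.trans' (v.symm' h.2) h2⟩,
            fun h => ⟨u.trans' h1 (u.symm' h.1), v.trans' h2 (v.symm' h.2)⟩⟩
        by_cases h : u α ω ∧ v β ω
        · rw [if_pos h, if_pos (hiff.1 h), pr_congr (hiff.1 h), pr_congr (t.symm' (hu h.1))]
        · rw [if_neg h, if_neg (fun h' => h (hiff.2 h')), zero_div]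
      simp only [e3]
      rw [← sum_div]
      change pr p (u ⊓ v) ω0 / _ ≤ _
      rcases (pr_nonneg hp (u ⊓ v) ω0).eq_or_lt with h0 | h0
      · rw [← h0, zero_div]; exact div_nonneg zero_le_one (pr_nonneg hp _ _)
      · rw [← div_div, div_self h0.ne']
    · rw [sum_eq_zero fun ω _ => if_neg fun h => hex ⟨ω, h⟩]
      split_ifs
      · exact div_nonneg zero_le_one (pr_nonneg hp _ _)
      · exact le_rfl
  rw [← hp.one]
  refine sum_le_sum fun α _ => ?_
  rw [sum_comm]
  calc ∑ β, ∑ ω, p α * p β *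
        (if u α ω ∧ v β ω then p ω / (pr p (u ⊓ v) ω * pr p t ω) else 0)
      ≤ ∑ β, p α * p β * (if t β α then 1 / pr p t α else 0) := by
        refine sum_le_sum fun β _ => ?_
        rw [← mul_sum]
        exact mul_le_mul_of_nonneg_left (e2 α β) (mul_nonneg (hp.nn _) (hp.nn _))
    _ = p α * (pr p t α / pr p t α) := by
        conv_rhs => rw [pr, sum_div, mul_sum]
        refine sum_congr rfl fun β _ => ?_
        split_ifs
        · unfold pr; ring
        · simp
    _ ≤ p α := mul_le_of_le_one_right (hp.nn _) (div_self_le_one _)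

theorem submod' (hp : Prob p) {u v t : Setoid Ω} (hu : u ≤ t) (hv : v ≤ t) :
    H p (u ⊓ v) + H p t ≤ H p u + H p v := by
  have h := submod_aux hp hu hv
  have h2 : ∑ ω, (p ω * log (pr p u ω) + p ω * log (pr p v ω) - p ω * log (pr p (u ⊓ v) ω)
      - p ω * log (pr p t ω)) ≤
      ∑ ω, (p ω * (pr p u ω * pr p v ω / (pr p (u ⊓ v) ω * pr p t ω)) - p ω) := by
    refine sum_le_sum fun ω _ => ?_
    by_cases h0 : p ω = 0
    · simp [h0]
    · have a1 := pr_pos hp u h0
      have a2 := pr_pos hp v h0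
      have a3 := pr_pos hp (u ⊓ v) h0
      have a4 := pr_pos hp t h0
      have := log_le_sub_one_of_pos (x := pr p u ω * pr p v ω / (pr p (u ⊓ v) ω * pr p t ω))
        (by positivity)
      rw [log_div (by positivity) (by positivity), log_mul a1.ne' a2.ne',
        log_mul a3.ne' a4.ne'] at this
      have := mul_le_mul_of_nonneg_left this (hp.nn ω)
      linarith
  simp only [sum_sub_distrib, sum_add_distrib, hp.one] at h2
  unfold H
  linarith

theorem mono (hp : Prob p) {u t : Setoid Ω} (hu : u ≤ t) : H p t ≤ H p u := by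
  have := submod' hp hu hu
  rw [inf_idem] at this
  linarith

theorem submod (hp : Prob p) (u v t w : Setoid Ω) (hu : u ≤ t) (hv : v ≤ t) (hw : u ⊓ v ≤ w) :
    H p w + H p t ≤ H p u + H p v := by
  have := submod' hp hu hv
  have := mono hp hw
  linarith

/-! ### the copy construction -/

/-- two conditionally independent copies over the partition `u` -/
abbrev Cp (u : Setoid Ω) : Type := {z : Ω × Ω // u z.1 z.2}

open Classical in
noncomputable instance (u : Setoid Ω) : Fintype (Cp u) := Subtype.fintype _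

/-- first copy -/
def f1 (u : Setoid Ω) (z : Cp u) : Ω := z.1.1

/-- second copy -/
def f2 (u : Setoid Ω) (z : Cp u) : Ω := z.1.2

/-- the law of the two copies -/
noncomputable def cp (p : Ω → ℝ) (u : Setoid Ω) (z : Cp u) : ℝ :=
  p z.1.1 * p z.1.2 / pr p u z.1.1

open Classical in
theorem sum_cp (u : Setoid Ω) (F : Ω → Ω → ℝ) :
    ∑ z : Cp u, F z.1.1 z.1.2 = ∑ α, ∑ β, if u α β then F α β else 0 := by
  rw [← Fintype.sum_prod_type' (f := fun α β => if u α β then F α β else 0), ← sum_filter]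
  exact (sum_subtype (p := fun z : Ω × Ω => u z.1 z.2) _ (by simp) (fun z => F z.1 z.2)).symm

theorem mul_div_pr (hp : Prob p) (u : Setoid Ω) (α : Ω) : p α * (pr p u α / pr p u α) = p α := by
  by_cases h : p α = 0
  · simp [h]
  · rw [div_self (pr_pos hp u h).ne', mul_one]

theorem sum_cp1 (hp : Prob p) (u : Setoid Ω) (F : Ω → ℝ) :
    ∑ z : Cp u, cp p u z * F (f1 u z) = ∑ α, p α * F α := by
  classical
  have := sum_cp u (fun α β => p α * p β / pr p u α * F α)
  refine (this.trans ?_)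
  refine sum_congr rfl fun α _ => ?_
  conv_rhs => rw [← mul_div_pr hp u α, pr, sum_div, mul_sum, sum_mul]
  refine sum_congr rfl fun β _ => ?_
  by_cases h : u α β
  · rw [if_pos h, if_pos (u.symm' h)]; unfold pr; ring
  · rw [if_neg h, if_neg (fun h' => h (u.symm' h'))]; simp

theorem sum_cp2 (hp : Prob p) (u : Setoid Ω) (F : Ω → ℝ) :
    ∑ z : Cp u, cp p u z * F (f2 u z) = ∑ α, p α * F α := by
  classical
  have := sum_cp u (fun α β => p α * p β / pr p u α * F β)
  refine (this.trans ?_)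
  rw [sum_comm]
  refine sum_congr rfl fun β _ => ?_
  conv_rhs => rw [← mul_div_pr hp u β, pr, sum_div, mul_sum, sum_mul]
  refine sum_congr rfl fun α _ => ?_
  by_cases h : u α β
  · rw [if_pos h, if_pos h, pr_congr h]; unfold pr; ring
  · rw [if_neg h, if_neg h]; simp

theorem prob_cp (hp : Prob p) (u : Setoid Ω) : Prob (cp p u) := by
  refine ⟨fun z => div_nonneg (mul_nonneg (hp.nn _) (hp.nn _)) (pr_nonneg hp _ _), ?_⟩
  have := sum_cp1 hp u (fun _ => 1)
  simpa [hp.one] using this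

theorem pr_cp1 (hp : Prob p) (u r : Setoid Ω) (z : Cp u) :
    pr (cp p u) (r.comap (f1 u)) z = pr p r (f1 u z) := by
  classical
  have := sum_cp1 hp u (fun α => if r α (f1 u z) then 1 else 0)
  simp only [mul_ite, mul_one, mul_zero] at this
  unfold pr
  convert this using 3
  rfl

theorem pr_cp2 (hp : Prob p) (u r : Setoid Ω) (z : Cp u) :
    pr (cp p u) (r.comap (f2 u)) z = pr p r (f2 u z) := by
  classical
  have := sum_cp2 hp u (fun α => if r α (f2 u z) then 1 else 0)
  simp only [mul_ite, mul_one, mul_zero] at this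
  unfold pr
  convert this using 3
  rfl

theorem H_cp1 (hp : Prob p) (u r : Setoid Ω) : H (cp p u) (r.comap (f1 u)) = H p r := by
  unfold H
  simp only [pr_cp1 hp]
  rw [sum_cp1 hp u (fun α => log (pr p r α))]

theorem H_cp2 (hp : Prob p) (u r : Setoid Ω) : H (cp p u) (r.comap (f2 u)) = H p r := by
  unfold H
  simp only [pr_cp2 hp]
  rw [sum_cp2 hp u (fun α => log (pr p r α))]

theorem pr_cp12 {u r s : Setoid Ω} (hr : r ≤ u) (hs : s ≤ u) (z : Cp u) :
    pr (cp p u) (r.comap (f1 u) ⊓ s.comap (f2 u)) z =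
      pr p r (f1 u z) * pr p s (f2 u z) / pr p u (f1 u z) := by
  classical
  have := sum_cp u (fun α β =>
    if r α (f1 u z) ∧ s β (f2 u z) then p α * p β / pr p u α else 0)
  have e : pr (cp p u) (r.comap (f1 u) ⊓ s.comap (f2 u)) z =
      ∑ w : Cp u, if r w.1.1 (f1 u z) ∧ s w.1.2 (f2 u z) then
        p w.1.1 * p w.1.2 / pr p u w.1.1 else 0 := by
    unfold pr
    refine sum_congr rfl fun w _ => ?_
    exact if_congr Iff.rfl rfl rfl
  rw [e, this]
  conv_rhs => rw [pr, pr, sum_mul_sum, sum_div]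
  refine sum_congr rfl fun α _ => ?_
  rw [sum_div]
  refine sum_congr rfl fun β _ => ?_
  by_cases h1 : r α (f1 u z)
  · by_cases h2 : s β (f2 u z)
    · have h3 : u α β := u.trans' (hr h1) (u.trans' z.2 (u.symm' (hs h2)))
      rw [if_pos h3, if_pos ⟨h1, h2⟩, if_pos h1, if_pos h2, pr_congr (hr h1)]
    · simp [h2]
  · simp [h1]

theorem H_cp12 (hp : Prob p) {u r s : Setoid Ω} (hr : r ≤ u) (hs : s ≤ u) :
    H (cp p u) (r.comap (f1 u) ⊓ s.comap (f2 u)) = H p r + H p s - H p u := by
  unfold H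
  rw [← sum_cp1 hp u (fun α => log (pr p r α)), ← sum_cp2 hp u (fun α => log (pr p s α)),
    ← sum_cp1 hp u (fun α => log (pr p u α))]
  have : ∀ z : Cp u, cp p u z * log (pr (cp p u) (r.comap (f1 u) ⊓ s.comap (f2 u)) z) =
      cp p u z * log (pr p r (f1 u z)) + cp p u z * log (pr p s (f2 u z))
        - cp p u z * log (pr p u (f1 u z)) := by
    intro z
    rw [pr_cp12 hr hs]
    by_cases h1 : p z.1.1 = 0
    · simp [cp, h1]
    by_cases h2 : p z.1.2 = 0
    · simp [cp, h2]
    have a1 := pr_pos hp r (ω := f1 u z) h1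
    have a2 := pr_pos hp s (ω := f2 u z) h2
    have a3 := pr_pos hp u (ω := f1 u z) h1
    rw [log_div (by positivity) a3.ne', log_mul a1.ne' a2.ne']
    ring
  simp only [this, sum_sub_distrib, sum_add_distrib]
  ring

omit [Fintype Ω] in
theorem comap_inf' {Ω' : Type} (f : Ω' → Ω) (r s : Setoid Ω) :
    (r ⊓ s).comap f = r.comap f ⊓ s.comap f := by
  ext x y; rfl

omit [Fintype Ω] in
theorem comap_f12 {u a : Setoid Ω} (h : u ≤ a) : a.comap (f1 u) = a.comap (f2 u) := by
  ext x y
  exact ⟨fun h1 => a.trans' (a.symm' (h x.2)) (a.trans' h1 (h y.2)),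
    fun h1 => a.trans' (h x.2) (a.trans' h1 (a.symm' (h y.2)))⟩

end Pool.Agent.H620Z.Ent
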