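import Pool.Agent.H620Z.Ent.Tree

open Finset Real

namespace Pool.Agent.H620Z.Ent

section unif

variable {Ω : Type} [Fintype Ω] [Nonempty Ω]

/-- the uniform law -/
noncomputable def un (Ω : Type) [Fintype Ω] : Ω → ℝ := fun _ => 1 / Fintype.card Ω

theorem prob_un : Prob (un Ω) := by
  have : (0 : ℝ) < Fintype.card Ω := by exact_mod_cast Fintype.card_pos
  refine ⟨fun _ => by unfold un; positivity, ?_⟩
  simp only [un, sum_const, card_univ, nsmul_eq_mul]
  field_simp

omit [Nonempty Ω] in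
open Classical in
theorem pr_un (r : Setoid Ω) (ω : Ω) :
    pr (un Ω) r ω = (#{ω' | r ω' ω} : ℝ) / Fintype.card Ω := by
  unfold pr un
  rw [← sum_filter, sum_const, nsmul_eq_mul]
  ring

theorem H_un_le {K : Type} [Fintype K] [Nonempty K] (r : Setoid Ω)
    (h : ∀ ω, ∃ f : K → Ω, Function.Injective f ∧ ∀ k, r (f k) ω) :
    H (un Ω) r ≤ log (Fintype.card Ω) - log (Fintype.card K) := by
  classical
  have h1 : (0 : ℝ) < Fintype.card Ω := by exact_mod_cast Fintype.card_pos
  have h2 : (0 : ℝ) < Fintype.card K := by exact_mod_cast Fintype.card_pos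
  have key : ∀ ω, log (Fintype.card K) - log (Fintype.card Ω) ≤ log (pr (un Ω) r ω) := by
    intro ω
    obtain ⟨f, hf, hr⟩ := h ω
    rw [← log_div h2.ne' h1.ne', pr_un]
    refine log_le_log (by positivity) (div_le_div_of_nonneg_right ?_ h1.le)
    have : #(univ.image f) ≤ #{ω' | r ω' ω} := card_le_card fun x hx => by
      obtain ⟨k, -, rfl⟩ := mem_image.1 hx
      simpa using hr k
    rw [card_image_of_injective _ hf, card_univ] at this
    exact_mod_cast this
  have := sum_le_sum fun ω (_ : ω ∈ univ) => mul_le_mul_of_nonneg_left (key ω) (prob_un.nn ω)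
  rw [← sum_mul, prob_un.one] at this
  unfold H; linarith

theorem H_un_ge {K : Type} [Fintype K] [Nonempty K] (r : Setoid Ω) (f : Ω → K)
    (h : ∀ ω ω', r ω ω' → f ω = f ω' → ω = ω') :
    log (Fintype.card Ω) - log (Fintype.card K) ≤ H (un Ω) r := by
  classical
  have h1 : (0 : ℝ) < Fintype.card Ω := by exact_mod_cast Fintype.card_pos
  have h2 : (0 : ℝ) < Fintype.card K := by exact_mod_cast Fintype.card_pos
  have key : ∀ ω, log (pr (un Ω) r ω) ≤ log (Fintype.card K) - log (Fintype.card Ω) := by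
    intro ω
    have hpos := pr_pos prob_un r (ω := ω) (by unfold un; positivity)
    rw [← log_div h2.ne' h1.ne']
    refine log_le_log hpos ?_
    rw [pr_un]
    refine div_le_div_of_nonneg_right ?_ h1.le
    have : #{ω' | r ω' ω} ≤ #(univ : Finset K) := by
      refine card_le_card_of_injOn f (fun _ _ => by simp) fun x hx y hy hxy => ?_
      simp only [coe_filter, mem_univ, true_and, Set.mem_ofPred_eq] at hx hy
      exact h x y (r.trans' hx (r.symm' hy)) hxy
    rw [card_univ] at this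
    exact_mod_cast this
  have := sum_le_sum fun ω (_ : ω ∈ univ) => mul_le_mul_of_nonneg_left (key ω) (prob_un.nn ω)
  rw [← sum_mul, prob_un.one] at this
  unfold H; linarith

end unif

/-! ### the Ruzsa-Szemeredi example -/

section ex

variable (M : ℕ) (B : Finset ℕ)

/-- a bit string indexed by the matchings, a matching and an edge of it -/
abbrev Om : Type := (ZMod M → ZMod 2) × ZMod M × B

variable {M B}

/-- an endpoint of the edge -/
def zz (k : ℕ) (ω : Om M B) : ZMod M := ω.2.1 + ((k * (ω.2.2 : ℕ) : ℕ) : ZMod M)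

/-- the matchings through a vertex -/
def Xs (B : Finset ℕ) (k : ℕ) (x u : ZMod M) : Prop := ∃ β ∈ B, x = u + ((k * β : ℕ) : ZMod M)

/-- first string -/
def va : Setoid (Om M B) := Setoid.ker fun ω => ω.1

/-- second string -/
def vb : Setoid (Om M B) := Setoid.ker fun ω => ω.1 + Pi.single ω.2.1 (1 : ZMod 2)

open Classical in
/-- a vertex and the bits at the matchings missing it -/
noncomputable def vc (k : ℕ) : Setoid (Om M B) :=
  Setoid.ker fun ω => (zz k ω, fun u => if Xs B k (zz k ω) u then 0 else ω.1 u)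

theorem va_iff {ω ω' : Om M B} : va ω ω' ↔ ω.1 = ω'.1 := Iff.rfl

theorem vb_iff {ω ω' : Om M B} :
    vb ω ω' ↔ ω.1 + Pi.single ω.2.1 (1 : ZMod 2) = ω'.1 + Pi.single ω'.2.1 (1 : ZMod 2) := Iff.rfl

theorem vc_iff {k : ℕ} {ω ω' : Om M B} :
    vc k ω ω' ↔ zz k ω = zz k ω' ∧ ∀ u, ¬ Xs B k (zz k ω) u → ω.1 u = ω'.1 u := by
  classical
  unfold vc
  rw [Setoid.ker_def, Prod.mk.injEq]
  refine and_congr_right fun h => ?_
  rw [← h, funext_iff]
  refine forall_congr' fun u => ?_
  by_cases hu : Xs B k (zz k ω) u <;> simp [hu]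

theorem Xs_self (k : ℕ) (ω : Om M B) : Xs B k (zz k ω) ω.2.1 := ⟨_, ω.2.2.2, rfl⟩

theorem single_inj {t t' : ZMod M}
    (h : (Pi.single t (1 : ZMod 2) : ZMod M → ZMod 2) = Pi.single t' 1) : t = t' := by
  by_contra hne
  have := congrFun h t
  rw [Pi.single_eq_same, Pi.single_eq_of_ne hne] at this
  exact absurd this (by decide)

theorem cast_inj {i j : ℕ} (hi : i < M) (hj : j < M) (h : (i : ZMod M) = j) : i = j := by
  rw [ZMod.natCast_eq_natCast_iff'] at h
  rwa [Nat.mod_eq_of_lt hi, Nat.mod_eq_of_lt hj] at h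

variable [NeZero M] [Nonempty B]

theorem ex_ab : H (un (Om M B)) (va ⊓ vb) ≤ log (Fintype.card (Om M B)) - log (Fintype.card B) :=
  H_un_le _ fun ω => ⟨fun β => (ω.1, ω.2.1, β), fun _ _ h => by simpa using h,
    fun _ => ⟨rfl, rfl⟩⟩

theorem ex_ac (k : ℕ) :
    H (un (Om M B)) (va ⊓ vc k) ≤ log (Fintype.card (Om M B)) - log (Fintype.card B) :=
  H_un_le _ fun ω => ⟨fun β => (ω.1, zz k ω - ((k * (β : ℕ) : ℕ) : ZMod M), β),
    fun _ _ h => (Prod.mk.inj (Prod.mk.inj h).2).2,
    fun _ => ⟨rfl, vc_iff.2 ⟨by simp [zz], fun _ _ => rfl⟩⟩⟩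

theorem ex_bc (k : ℕ) :
    H (un (Om M B)) (vb ⊓ vc k) ≤ log (Fintype.card (Om M B)) - log (Fintype.card B) := by
  refine H_un_le _ fun ω => ⟨fun β => (ω.1 + Pi.single ω.2.1 (1 : ZMod 2) -
      Pi.single (zz k ω - ((k * (β : ℕ) : ℕ) : ZMod M)) (1 : ZMod 2),
      zz k ω - ((k * (β : ℕ) : ℕ) : ZMod M), β),
    fun _ _ h => (Prod.mk.inj (Prod.mk.inj h).2).2, fun β => ⟨vb_iff.2 (by simp), ?_⟩⟩
  refine (vc k).symm' (vc_iff.2 ⟨by simp [zz], fun u hu => ?_⟩)
  have h1 : u ≠ ω.2.1 := fun h => hu (h ▸ Xs_self k ω)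
  have h2 : u ≠ zz k ω - ((k * (β : ℕ) : ℕ) : ZMod M) := fun h =>
    hu ⟨β, β.2, by rw [h]; simp⟩
  simp only [Pi.sub_apply, Pi.add_apply, Pi.single_eq_of_ne h1, Pi.single_eq_of_ne h2]
  simp

theorem ex_a : log (Fintype.card (Om M B)) - log (Fintype.card (ZMod M × B)) ≤
    H (un (Om M B)) va :=
  H_un_ge _ (fun ω => ω.2) fun _ _ h1 h2 => Prod.ext h1 h2

theorem ex_b : log (Fintype.card (Om M B)) - log (Fintype.card (ZMod M × B)) ≤
    H (un (Om M B)) vb :=
  H_un_ge _ (fun ω => ω.2) fun ω ω' h1 h2 => by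
    have h3 := vb_iff.1 h1
    rw [h2] at h3
    exact Prod.ext (add_right_cancel h3) h2

theorem ex_abc {k : ℕ} (hk : 0 < k) (hB : ∀ β ∈ B, k * β < M) :
    log (Fintype.card (Om M B)) ≤ H (un (Om M B)) (va ⊓ vb ⊓ vc k) := by
  have := H_un_ge (K := Unit) (va ⊓ vb ⊓ vc k : Setoid (Om M B)) (fun _ => ())
    fun ω ω' h _ => by
      have h1 := va_iff.1 h.1.1
      have h2 := vb_iff.1 h.1.2
      have h3 := (vc_iff.1 h.2).1
      rw [h1] at h2
      have h4 := single_inj (add_left_cancel h2)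
      unfold zz at h3
      rw [h4] at h3
      have h5 := cast_inj (hB _ ω.2.2.2) (hB _ ω'.2.2.2) (add_left_cancel h3)
      exact Prod.ext h1 (Prod.ext h4 (Subtype.ext (Nat.eq_of_mul_eq_mul_left hk h5)))
  simpa using this

theorem ex_cd (hB : ∀ β ∈ B, ∀ β' ∈ B, β + β' < M) (hA : ThreeAPFree (B : Set ℕ)) :
    log (Fintype.card (Om M B)) - log 2 ≤ H (un (Om M B)) (vc 1 ⊓ vc 2) := by
  have := H_un_ge (K := ZMod 2) (vc 1 ⊓ vc 2 : Setoid (Om M B)) (fun ω => ω.1 ω.2.1)
    fun ω ω' h hf => by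
      obtain ⟨h1, h2⟩ := vc_iff.1 h.1
      obtain ⟨h3, h4⟩ := vc_iff.1 h.2
      have hb := ω.2.2.2
      have hb' := ω'.2.2.2
      have e1 : ((ω.2.2 : ℕ) : ZMod M) = ((ω'.2.2 : ℕ) : ZMod M) := by
        unfold zz at h1 h3
        push_cast at h1 h3
        linear_combination h3 - h1
      have e2 : ω.2.1 = ω'.2.1 := by
        unfold zz at h1
        push_cast at h1
        linear_combination h1 - e1
      have e3 := cast_inj (lt_of_le_of_lt (Nat.le_add_right _ _) (hB _ hb _ hb))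
        (lt_of_le_of_lt (Nat.le_add_right _ _) (hB _ hb' _ hb')) e1
      refine Prod.ext (funext fun u => ?_) (Prod.ext e2 (Subtype.ext e3))
      by_cases hu1 : Xs B 1 (zz 1 ω) u
      · by_cases hu2 : Xs B 2 (zz 2 ω) u
        · obtain ⟨β1, m1, r1⟩ := hu1
          obtain ⟨β2, m2, r2⟩ := hu2
          unfold zz at r1 r2
          push_cast at r1 r2
          have e4 : ((β1 + (ω.2.2 : ℕ) : ℕ) : ZMod M) = ((β2 + β2 : ℕ) : ZMod M) := by
            push_cast
            linear_combination r2 - r1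
          have e5 := cast_inj (hB _ m1 _ hb) (hB _ m2 _ m2) e4
          have e6 : β1 = β2 := hA m1 m2 hb e5
          have e7 : (ω.2.2 : ℕ) = β1 := by omega
          have e8 : u = ω.2.1 := by
            rw [e7] at r1
            linear_combination -r1
          rw [e8, hf, e2]
        · exact h4 u hu2
      · exact h2 u hu1
  simpa using this

theorem ex_main (hB : ∀ β ∈ B, ∀ β' ∈ B, β + β' < M) (hA : ThreeAPFree (B : Set ℕ)) :
    Ing (un (Om M B)) va vb (vc 1) (vc 2) ≤ 2 * log M - 3 * log (#B) + log 2 ∧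
    L (un (Om M B)) va vb (vc 1) + L (un (Om M B)) va vb (vc 2) ≤ 4 * (log M - log (#B)) := by
  have a1 := ex_ab (M := M) (B := B)
  have a2 := ex_ac (M := M) (B := B) 1
  have a3 := ex_ac (M := M) (B := B) 2
  have a4 := ex_bc (M := M) (B := B) 1
  have a5 := ex_bc (M := M) (B := B) 2
  have a6 := ex_a (M := M) (B := B)
  have a7 := ex_b (M := M) (B := B)
  have a8 := ex_abc (M := M) (B := B) (k := 1) one_pos fun β h => by have := hB β h β h; omega
  have a9 := ex_abc (M := M) (B := B) (k := 2) two_pos fun β h => by have := hB β h β h; omega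
  have a10 := ex_cd hB hA
  have h1 : (0 : ℝ) < Fintype.card B := by exact_mod_cast Fintype.card_pos
  have h2 : (0 : ℝ) < M := by exact_mod_cast NeZero.pos M
  rw [Fintype.card_prod (ZMod M) B, ZMod.card, Nat.cast_mul, log_mul h2.ne' h1.ne'] at a6 a7
  rw [Fintype.card_coe] at a1 a2 a3 a4 a5 a6 a7
  unfold Ing L
  constructor <;> linarith

end ex

/-- the conditional inequality is essentially conditional -/
theorem essential (σ : ℝ) (hσ : 0 ≤ σ) : ∃ (Ω : Type) (_ : Fintype Ω) (p : Ω → ℝ)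
    (a b c d : Setoid Ω), Prob p ∧ Ing p a b c d + σ * (L p a b c + L p a b d) < 0 := by
  obtain ⟨N, hN⟩ := exists_nat_ge (exp ((6 * (3 + 4 * σ)) ^ 2))
  have hK : 3 ≤ 3 + 4 * σ := by linarith
  have hN1 : (1 : ℝ) ≤ N := le_trans (one_le_exp (by positivity)) hN
  have hN0 : (0 : ℝ) < N := by linarith
  have hl : (6 * (3 + 4 * σ)) ^ 2 ≤ log N := by
    rw [le_log_iff_exp_le hN0]; exact hN
  obtain ⟨B, hB1, hB2, hB3⟩ := rothNumberNat_spec N
  have hr := Behrend.roth_lower_bound (N := N)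
  rw [← hB2] at hr
  have hB0 : (0 : ℝ) < #B := lt_of_lt_of_le (by positivity) hr
  have hBne : B.Nonempty := card_pos.1 (by exact_mod_cast hB0)
  have hlB : log N - 4 * √(log N) ≤ log (#B) := by
    have := log_le_log (by positivity) hr
    rw [log_mul hN0.ne' (exp_pos _).ne', log_exp] at this
    linarith
  have hNn : 0 < N := by exact_mod_cast hN0
  have : NeZero (2 * N) := ⟨by omega⟩
  have : Nonempty B := hBne.to_subtype
  obtain ⟨h1, h2⟩ := ex_main (M := 2 * N) (B := B) (fun β h β' h' => by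
    have := mem_range.1 (hB1 h); have := mem_range.1 (hB1 h'); omega) hB3
  refine ⟨Om (2 * N) B, inferInstance, un _, va, vb, vc 1, vc 2, prob_un, ?_⟩
  rw [Nat.cast_mul, Nat.cast_ofNat, log_mul two_ne_zero hN0.ne'] at h1 h2
  have hl2 : log 2 < 1 := lt_trans log_two_lt_d9 (by norm_num)
  have hq : 6 * (3 + 4 * σ) ≤ √(log N) := le_sqrt_of_sq_le hl
  have hq2 : √(log N) * √(log N) = log N := mul_self_sqrt (log_nonneg hN1)
  have h3 := mul_le_mul_of_nonneg_left h2 hσ
  have h4 : σ * (log 2 + log N - log #B) ≤ σ * (1 + 4 * √(log N)) :=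
    mul_le_mul_of_nonneg_left (by linarith) hσ
  have h5 := mul_le_mul_of_nonneg_right hq (sqrt_nonneg (log N))
  have h6 : σ * 18 ≤ σ * √(log N) := mul_le_mul_of_nonneg_left (by linarith) hσ
  nlinarith

end Pool.Agent.H620Z.Ent
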