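import Mathlib

open Polynomial Filter Topology

namespace Pool.Agent.H620Z.Ent

/-- evaluation of a polynomial in two variables -/
noncomputable def ev (σ τ : ℝ) (P : ℝ[X][X]) : ℝ := (P.eval (C τ)).eval σ

theorem ev_add (σ τ : ℝ) (P Q : ℝ[X][X]) : ev σ τ (P + Q) = ev σ τ P + ev σ τ Q := by simp [ev]

theorem ev_mul (σ τ : ℝ) (P Q : ℝ[X][X]) : ev σ τ (P * Q) = ev σ τ P * ev σ τ Q := by simp [ev]

theorem ev_C (σ τ : ℝ) (r : ℝ[X]) : ev σ τ (C r) = r.eval σ := by simp [ev]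

theorem ev_X (σ τ : ℝ) : ev σ τ X = τ := by simp [ev]

theorem ev_cont (σ : ℝ) (P : ℝ[X][X]) : Continuous fun τ => ev σ τ P := by
  induction P using Polynomial.induction_on' with
  | add P Q hP hQ => simp only [ev_add]; exact hP.add hQ
  | monomial n r => simp only [ev, eval_monomial, eval_mul, eval_pow, eval_C]; fun_prop

theorem poly_small (r : ℝ[X]) :
    Tendsto (fun s : ℕ => r.eval ((s : ℝ) + 1) * (2 / 2 ^ s)) atTop (𝓝 0) := by
  induction r using Polynomial.induction_on' with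
  | add P Q hP hQ => simpa [add_mul] using hP.add hQ
  | monomial n c =>
    have h := tendsto_pow_const_div_const_pow_of_one_lt n (r := 2) (by norm_num)
    have h2 := (h.comp (tendsto_add_atTop_nat 1)).const_mul (c * 4)
    rw [mul_zero] at h2
    refine h2.congr fun s => ?_
    simp only [Function.comp, eval_monomial]
    push_cast
    field_simp
    ring

theorem small (P : ℝ[X][X]) {ε : ℝ} (hε : 0 < ε) : ∀ᶠ s : ℕ in atTop, ∀ τ : ℝ, 0 < τ →
    τ ≤ 2 / 2 ^ s → |τ * ev ((s : ℝ) + 1) τ P| ≤ ε := by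
  induction P using Polynomial.induction_on' generalizing ε with
  | add P Q hP hQ =>
    filter_upwards [hP (half_pos hε), hQ (half_pos hε)] with s h1 h2 τ t1 t2
    rw [ev_add, mul_add]
    linarith [abs_add_le (τ * ev ((s : ℝ) + 1) τ P) (τ * ev ((s : ℝ) + 1) τ Q), h1 τ t1 t2,
      h2 τ t1 t2]
  | monomial n r =>
    have h := (poly_small r).abs
    rw [abs_zero] at h
    filter_upwards [h.eventually (ge_mem_nhds hε), eventually_ge_atTop 1] with s h1 h2 τ t1 t2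
    have h3 : (2 : ℝ) ≤ 2 ^ s := by
      calc (2 : ℝ) = 2 ^ 1 := by norm_num
        _ ≤ 2 ^ s := pow_le_pow_right₀ (by norm_num) h2
    have h4 : τ ≤ 1 := t2.trans (by rw [div_le_one (by positivity)]; exact h3)
    have h5 : τ ^ n ≤ 1 := pow_le_one₀ t1.le h4
    simp only [ev, eval_monomial, eval_mul, eval_pow, eval_C]
    refine le_trans ?_ h1
    rw [abs_mul, abs_mul, abs_mul, abs_of_pos t1, abs_of_pos (pow_pos t1 n),
      abs_of_pos (by positivity : (0 : ℝ) < 2 / 2 ^ s)]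
    have h6 := abs_nonneg (r.eval ((s : ℝ) + 1))
    calc τ * (|r.eval ((s : ℝ) + 1)| * τ ^ n) ≤ 2 / 2 ^ s * (|r.eval ((s : ℝ) + 1)| * 1) := by
          gcongr
      _ = _ := by ring

theorem poly_big {r : ℝ[X]} (hr : r ≠ 0) :
    ∃ c : ℝ, 0 < c ∧ ∀ᶠ s : ℕ in atTop, c ≤ |r.eval ((s : ℝ) + 1)| := by
  by_cases hd : 0 < r.degree
  · have h := (r.abs_tendsto_atTop hd).comp
      (tendsto_atTop_add_const_right atTop (1 : ℝ) tendsto_natCast_atTop_atTop)
    exact ⟨1, one_pos, h.eventually (eventually_ge_atTop 1)⟩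
  · rw [eq_C_of_degree_le_zero (not_lt.1 hd)] at hr ⊢
    refine ⟨|r.coeff 0|, abs_pos.2 fun h => hr (by rw [h, C_0]), Eventually.of_forall fun s => ?_⟩
    simp

theorem nonvanish (n : ℕ) : ∀ P : ℝ[X][X], P.natDegree = n → P ≠ 0 → ∀ᶠ s : ℕ in atTop,
    ∀ τ : ℝ, 0 < τ → τ ≤ 2 / 2 ^ s → ev ((s : ℝ) + 1) τ P ≠ 0 := by
  induction n using Nat.strong_induction_on with
  | _ n ih =>
    intro P hn hP
    have e := X_mul_divX_add P
    by_cases h0 : P.coeff 0 = 0
    · rw [h0, C_0, add_zero] at e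
      have h1 : P.divX ≠ 0 := fun h => hP (by rw [← e, h, mul_zero])
      have h2 : P.divX.natDegree < n := by
        have := natDegree_X_mul h1
        rw [e] at this
        omega
      filter_upwards [ih _ h2 _ rfl h1] with s hs τ t1 t2
      rw [← e, ev_mul, ev_X]
      exact mul_ne_zero t1.ne' (hs τ t1 t2)
    · obtain ⟨c, hc, h1⟩ := poly_big h0
      filter_upwards [h1, small P.divX (half_pos hc)] with s h2 h3 τ t1 t2 h
      rw [← e, ev_add, ev_mul, ev_X, ev_C] at h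
      have h4 := h3 τ t1 t2
      rw [show τ * ev ((s : ℝ) + 1) τ P.divX = -eval ((s : ℝ) + 1) (P.coeff 0) by linarith,
        abs_neg] at h4
      linarith

theorem sign_const (P : ℝ[X][X]) : ∀ᶠ s : ℕ in atTop, ∀ τ : ℝ, 0 < τ → τ ≤ 2 / 2 ^ s →
    (ev ((s : ℝ) + 1) (2 / 2 ^ s) P = 0 → ev ((s : ℝ) + 1) τ P = 0) ∧
    (0 < ev ((s : ℝ) + 1) (2 / 2 ^ s) P → 0 < ev ((s : ℝ) + 1) τ P) := by
  by_cases hP : P = 0
  · subst hP; simp [ev]
  · filter_upwards [nonvanish _ P rfl hP] with s hs τ t1 t2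
    refine ⟨fun h => absurd h (hs _ (by positivity) le_rfl), fun h => ?_⟩
    by_contra hcon
    obtain ⟨x, hx, hx0⟩ := intermediate_value_Icc t2 (ev_cont ((s : ℝ) + 1) P).continuousOn
      (⟨not_lt.1 hcon, h.le⟩ : (0 : ℝ) ∈ Set.Icc _ _)
    exact hs x (lt_of_lt_of_le t1 hx.1) hx.2 hx0

/-- restriction of a polynomial to an affine plane -/
noncomputable def res {ι : Type} (U V W : ι → ℝ) (f : MvPolynomial ι ℝ) : ℝ[X][X] :=
  MvPolynomial.eval₂ (C.comp C) (fun i => C (C (U i) + C (V i) * X) + C (C (W i)) * X) f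

theorem ev_res {ι : Type} (U V W : ι → ℝ) (f : MvPolynomial ι ℝ) (σ τ : ℝ) :
    ev σ τ (res U V W f) = MvPolynomial.eval (fun i => U i + σ * V i + τ * W i) f := by
  induction f using MvPolynomial.induction_on with
  | C a => simp [res, ev]
  | add f g hf hg =>
    unfold res at *
    rw [MvPolynomial.eval₂_add, ev_add, hf, hg, map_add]
  | mul_X f i hf =>
    unfold res at *
    rw [MvPolynomial.eval₂_mul, ev_mul, hf, map_mul, MvPolynomial.eval₂_X, MvPolynomial.eval_X]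
    congr 1
    simp [ev]; ring

/-- a semialgebraic set cannot have an exponentially thin cusp -/
theorem no_cusp {ι : Type} (U V W : ι → ℝ) {n m : ℕ} (f : Fin n → MvPolynomial ι ℝ)
    (g : Fin n → Fin m → MvPolynomial ι ℝ) (Q : (ι → ℝ) → Prop)
    (hQ : ∀ c, Q c ↔ ∃ j, MvPolynomial.eval c (f j) = 0 ∧ ∀ l, 0 < MvPolynomial.eval c (g j l))
    (h1 : ∀ s : ℕ, 1 ≤ s → Q fun i => U i + ((s : ℝ) + 1) * V i + 2 / 2 ^ s * W i) :
    ∃ s : ℕ, ∀ τ : ℝ, 0 < τ → τ ≤ 2 / 2 ^ s → Q fun i => U i + ((s : ℝ) + 1) * V i + τ * W i := by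
  have a1 := eventually_all.2 fun j => sign_const (res U V W (f j))
  have a2 := eventually_all.2 fun j => eventually_all.2 fun l => sign_const (res U V W (g j l))
  obtain ⟨s, b1, b2, b3⟩ := (a1.and (a2.and (eventually_ge_atTop 1))).exists
  refine ⟨s, fun τ t1 t2 => ?_⟩
  obtain ⟨j, c1, c2⟩ := (hQ _).1 (h1 s b3)
  simp only [ev_res] at b1 b2
  exact (hQ _).2 ⟨j, (b1 j τ t1 t2).1 c1, fun l => (b2 j l τ t1 t2).2 (c2 l)⟩

end Pool.Agent.H620Z.Ent
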