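import Pool.Agent.H620Z.Ent.Ex
import Pool.Agent.H620Z.Ent.Semi

open Finset Real

namespace Pool.Agent.H620Z.Ent

/-- basis vector -/
noncomputable def E (T S : Finset (Fin 4)) : ℝ := if S = T then 1 else 0

/-- coefficients of the Ingleton expression -/
noncomputable def U (S : Finset (Fin 4)) : ℝ :=
  E {0, 1} S + E {0, 2} S + E {1, 2} S + E {0, 3} S + E {1, 3} S - E {0} S - E {1} S
    - E {0, 1, 2} S - E {0, 1, 3} S - E {2, 3} S

/-- coefficients of the four conditional mutual informations -/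
noncomputable def V (S : Finset (Fin 4)) : ℝ :=
  (2 * E {0, 1} S + E {0, 2} S + E {1, 2} S - E {0} S - E {1} S - 2 * E {0, 1, 2} S) +
  (2 * E {0, 1} S + E {0, 3} S + E {1, 3} S - E {0} S - E {1} S - 2 * E {0, 1, 3} S)

/-- coefficients of `I(a;b|c)` -/
noncomputable def W (S : Finset (Fin 4)) : ℝ :=
  E {0, 2} S + E {1, 2} S - E {2} S - E {0, 1, 2} S

theorem sum_E (T : Finset (Fin 4)) (h : Finset (Fin 4) → ℝ) : ∑ S, E T S * h S = h T := by
  simp [E]

theorem sum_slice {Ω : Type} [Fintype Ω] (p : Ω → ℝ) (r : Fin 4 → Setoid Ω) (σ τ : ℝ) :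
    ∑ S : Finset (Fin 4), (U S + σ * V S + τ * W S) * H p (S.inf r) =
      Ing p (r 0) (r 1) (r 2) (r 3) + σ * (L p (r 0) (r 1) (r 2) + L p (r 0) (r 1) (r 3)) +
        τ * J p (r 0) (r 1) (r 2) := by
  simp only [U, V, W, add_mul, sub_mul, mul_add, mul_sub, mul_assoc, sum_add_distrib,
    sum_sub_distrib, ← mul_sum, sum_E, inf_insert, inf_singleton, Ing, L, J, inf_assoc]

theorem inf_iff {Ω ι : Type} (r : ι → Setoid Ω) (S : Finset ι) (x y : Ω) :
    (S.inf r) x y ↔ ∀ i ∈ S, r i x y := by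
  classical
  induction S using Finset.induction_on with
  | empty => exact ⟨fun _ _ h => absurd h (notMem_empty _), fun _ => trivial⟩
  | insert i S _ ih =>
    rw [inf_insert, forall_mem_insert, ← ih]; rfl

/-- validity of a linear information inequality -/
def Valid (c : Finset (Fin 4) → ℝ) : Prop :=
  ∀ (N : ℕ) (p : Fin N → ℝ) (X : Fin 4 → Fin N → Fin N), (∀ ω, 0 ≤ p ω) → ∑ ω, p ω = 1 →
    0 ≤ ∑ S : Finset (Fin 4), c S *
      (-∑ ω, p ω * Real.log (∑ ω', if (∀ i ∈ S, X i ω' = X i ω) then p ω' else 0))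

theorem H_eq {N : ℕ} (p : Fin N → ℝ) (X : Fin 4 → Fin N → Fin N) (S : Finset (Fin 4)) :
    (-∑ ω, p ω * Real.log (∑ ω', if (∀ i ∈ S, X i ω' = X i ω) then p ω' else 0)) =
      H p (S.inf fun i => Setoid.ker (X i)) := by
  classical
  unfold H pr
  congr 1
  refine sum_congr rfl fun ω _ => ?_
  congr 2
  refine sum_congr rfl fun ω' _ => ?_
  exact if_congr (inf_iff (fun i => Setoid.ker (X i)) S ω' ω).symm rfl rfl

theorem H_equiv {Ω Ω' : Type} [Fintype Ω] [Fintype Ω'] (e : Ω' ≃ Ω) (p : Ω → ℝ) (r : Setoid Ω) :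
    H (fun x => p (e x)) (r.comap e) = H p r := by
  classical
  have h : ∀ x, pr (fun x => p (e x)) (r.comap e) x = pr p r (e x) := by
    intro x
    unfold pr
    refine Fintype.sum_equiv e _ _ fun y => if_congr Iff.rfl rfl rfl
  unfold H
  simp only [h]
  rw [Fintype.sum_equiv e _ (fun ω => p ω * log (pr p r ω)) fun _ => rfl]

theorem valid_iff (c : Finset (Fin 4) → ℝ) : Valid c ↔ ∀ (Ω : Type) [Fintype Ω] (p : Ω → ℝ)
    (r : Fin 4 → Setoid Ω), Prob p → 0 ≤ ∑ S, c S * H p (S.inf r) := by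
  constructor
  · intro h Ω _ p r hp
    let e := (Fintype.equivFin Ω).symm
    have := h _ (fun x => p (e x)) (fun i x => e.symm (Quotient.out (Quotient.mk (r i) (e x))))
      (fun x => hp.nn _) (by rw [← hp.one]; exact Fintype.sum_equiv e _ _ fun _ => rfl)
    simp only [H_eq] at this
    refine this.trans (le_of_eq (sum_congr rfl fun S _ => ?_))
    rw [← H_equiv e p (S.inf r)]
    congr 2
    ext x y
    rw [inf_iff, Setoid.comap_rel, inf_iff]
    refine forall₂_congr fun i _ => ?_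
    rw [Setoid.ker_def, e.symm.injective.eq_iff, Quotient.out_injective.eq_iff, Quotient.eq]
  · intro h N p X h1 h2
    simp only [H_eq]
    exact h _ p _ ⟨h1, h2⟩

theorem not_semialg : ¬ ∃ (n m : ℕ) (f : Fin n → MvPolynomial (Finset (Fin 4)) ℝ)
    (g : Fin n → Fin m → MvPolynomial (Finset (Fin 4)) ℝ), ∀ c : Finset (Fin 4) → ℝ,
      Valid c ↔ ∃ j, MvPolynomial.eval c (f j) = 0 ∧ ∀ l, 0 < MvPolynomial.eval c (g j l) := by
  rintro ⟨n, m, f, g, h⟩
  obtain ⟨s, hs⟩ := no_cusp U V W f g Valid h fun s hs => (valid_iff _).2 fun Ω _ p r hp => by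
    rw [sum_slice]; exact valid hp _ _ _ _ hs
  obtain ⟨Ω, _, p, a, b, c, d, hp, hlt⟩ := essential ((s : ℝ) + 1) (by positivity)
  have hJ := J_nonneg hp a b c
  set v := Ing p a b c d + ((s : ℝ) + 1) * (L p a b c + L p a b d) with hv
  have h1 : 0 < -v / (J p a b c + 1) := div_pos (by linarith) (by linarith)
  have h2 := (valid_iff _).1 (hs (min (2 / 2 ^ s) (-v / (J p a b c + 1)))
    (lt_min (by positivity) h1) (min_le_left _ _)) Ω p ![a, b, c, d] hp
  rw [sum_slice] at h2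
  simp only [Matrix.cons_val] at h2
  have h3 := mul_le_mul_of_nonneg_right (min_le_right (2 / 2 ^ s) (-v / (J p a b c + 1))) hJ
  have h4 : -v / (J p a b c + 1) * (J p a b c + 1) = -v := div_mul_cancel₀ _ (by linarith)
  nlinarith

end Pool.Agent.H620Z.Ent
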