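import Pool.Agent.H620Z.Ent.Basic

open Finset Real

namespace Pool.Agent.H620Z.Ent

/-- conditional mutual information `I(a;b|e)` -/
noncomputable def J {Ω : Type} [Fintype Ω] (p : Ω → ℝ) (a b e : Setoid Ω) : ℝ :=
  H p (a ⊓ e) + H p (b ⊓ e) - H p e - H p (a ⊓ b ⊓ e)

/-- `I(a;e|b) + I(b;e|a)` -/
noncomputable def L {Ω : Type} [Fintype Ω] (p : Ω → ℝ) (a b e : Setoid Ω) : ℝ :=
  2 * H p (a ⊓ b) + H p (a ⊓ e) + H p (b ⊓ e) - H p a - H p b - 2 * H p (a ⊓ b ⊓ e)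

/-- the Ingleton expression -/
noncomputable def Ing {Ω : Type} [Fintype Ω] (p : Ω → ℝ) (a b c d : Setoid Ω) : ℝ :=
  H p (a ⊓ b) + H p (a ⊓ c) + H p (b ⊓ c) + H p (a ⊓ d) + H p (b ⊓ d) - H p a - H p b
    - H p (a ⊓ b ⊓ c) - H p (a ⊓ b ⊓ d) - H p (c ⊓ d)

variable {Ω : Type} [Fintype Ω] {p : Ω → ℝ}

theorem J_nonneg (hp : Prob p) (a b e : Setoid Ω) : 0 ≤ J p a b e := by
  have := submod hp (a ⊓ e) (b ⊓ e) e (a ⊓ b ⊓ e) (by order) (by order) (by order)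
  unfold J; linarith

theorem L_nonneg (hp : Prob p) (a b e : Setoid Ω) : 0 ≤ L p a b e := by
  have := submod hp (a ⊓ b) (a ⊓ e) a (a ⊓ b ⊓ e) (by order) (by order) (by order)
  have := submod hp (a ⊓ b) (b ⊓ e) b (a ⊓ b ⊓ e) (by order) (by order) (by order)
  unfold L; linarith

theorem step_L (hp : Prob p) {a b c e : Setoid Ω}
    (h : H p (a ⊓ b ⊓ (c ⊓ e)) = H p (a ⊓ b ⊓ c) + H p (a ⊓ b ⊓ e) - H p (a ⊓ b)) :
    L p a b (c ⊓ e) ≤ L p a b e + L p a b c := by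
  have := submod hp (a ⊓ c) (a ⊓ e) a (a ⊓ (c ⊓ e)) (by order) (by order) (by order)
  have := submod hp (b ⊓ c) (b ⊓ e) b (b ⊓ (c ⊓ e)) (by order) (by order) (by order)
  unfold L; linarith

theorem step_J (hp : Prob p) {a b c d e : Setoid Ω}
    (h1 : H p (a ⊓ b ⊓ (c ⊓ e)) = H p (a ⊓ b ⊓ c) + H p (a ⊓ b ⊓ e) - H p (a ⊓ b))
    (h2 : H p (a ⊓ b ⊓ (d ⊓ e)) = H p (a ⊓ b ⊓ d) + H p (a ⊓ b ⊓ e) - H p (a ⊓ b))
    (h3 : H p (a ⊓ b ⊓ (c ⊓ d ⊓ e)) =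
      H p (a ⊓ b ⊓ (c ⊓ d)) + H p (a ⊓ b ⊓ e) - H p (a ⊓ b)) :
    J p a b (c ⊓ e) + J p a b (d ⊓ e) ≤ J p a b e + Ing p a b c d + L p a b e := by
  have := submod hp (a ⊓ c) (a ⊓ e) a (a ⊓ (c ⊓ e)) (by order) (by order) (by order)
  have := submod hp (b ⊓ c) (b ⊓ e) b (b ⊓ (c ⊓ e)) (by order) (by order) (by order)
  have := submod hp (a ⊓ d) (a ⊓ e) a (a ⊓ (d ⊓ e)) (by order) (by order) (by order)
  have := submod hp (b ⊓ d) (b ⊓ e) b (b ⊓ (d ⊓ e)) (by order) (by order) (by order)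
  have := submod hp (c ⊓ e) (d ⊓ e) e (c ⊓ d ⊓ e) (by order) (by order) (by order)
  have := submod hp (c ⊓ d ⊓ e) (a ⊓ b ⊓ (c ⊓ d)) (c ⊓ d) (a ⊓ b ⊓ (c ⊓ d ⊓ e))
    (by order) (by order) (by order)
  unfold J Ing L; linarith

theorem cp_indep (hp : Prob p) (a b c e : Setoid Ω) :
    H (cp p (a ⊓ b)) (a.comap (f1 (a ⊓ b)) ⊓ b.comap (f1 (a ⊓ b)) ⊓
      (c.comap (f1 (a ⊓ b)) ⊓ e.comap (f2 (a ⊓ b)))) =
    H (cp p (a ⊓ b)) (a.comap (f1 (a ⊓ b)) ⊓ b.comap (f1 (a ⊓ b)) ⊓ c.comap (f1 (a ⊓ b))) +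
    H (cp p (a ⊓ b)) (a.comap (f1 (a ⊓ b)) ⊓ b.comap (f1 (a ⊓ b)) ⊓ e.comap (f2 (a ⊓ b))) -
    H (cp p (a ⊓ b)) (a.comap (f1 (a ⊓ b)) ⊓ b.comap (f1 (a ⊓ b))) := by
  have h := H_cp12 hp (u := a ⊓ b) (r := a ⊓ b ⊓ c) (s := a ⊓ b ⊓ e) (by order) (by order)
  have e0 : (a ⊓ b).comap (f1 (a ⊓ b)) = (a ⊓ b).comap (f2 (a ⊓ b)) := comap_f12 le_rfl
  have e1 : a.comap (f1 (a ⊓ b)) ⊓ b.comap (f1 (a ⊓ b)) ⊓
      (c.comap (f1 (a ⊓ b)) ⊓ e.comap (f2 (a ⊓ b))) =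
      (a ⊓ b ⊓ c).comap (f1 (a ⊓ b)) ⊓ (a ⊓ b ⊓ e).comap (f2 (a ⊓ b)) := by
    rw [comap_inf' (f2 (a ⊓ b)) (a ⊓ b) e, ← e0, comap_inf' (f1 (a ⊓ b)) (a ⊓ b) c,
      ← comap_inf' (f1 (a ⊓ b)) a b]
    apply le_antisymm <;> order
  have e2 : a.comap (f1 (a ⊓ b)) ⊓ b.comap (f1 (a ⊓ b)) ⊓ e.comap (f2 (a ⊓ b)) =
      (a ⊓ b ⊓ e).comap (f2 (a ⊓ b)) := by
    rw [comap_inf' (f2 (a ⊓ b)) (a ⊓ b) e, ← e0, ← comap_inf' (f1 (a ⊓ b)) a b]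
  rw [e1, e2, h, ← comap_inf' (f1 (a ⊓ b)) a b, ← comap_inf' (f1 (a ⊓ b)) (a ⊓ b) c,
    H_cp1 hp, H_cp1 hp, H_cp2 hp]

/-- the exponential family of Dougherty, Freiling and Zeger, with a fifth variable -/
theorem tree (s : ℕ) : ∀ (Ω : Type) [Fintype Ω] (p : Ω → ℝ), Prob p → ∀ a b c d e : Setoid Ω,
    0 ≤ J p a b e + (2 ^ s - 1) * (Ing p a b c d + L p a b e + s * (L p a b c + L p a b d)) := by
  induction s with
  | zero => intro Ω _ p hp a b c d e; simpa using J_nonneg hp a b e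
  | succ s ih =>
    intro Ω _ p hp a b c d e
    have hq := prob_cp hp (a ⊓ b)
    have i1 := cp_indep hp a b c e
    have i2 := cp_indep hp a b d e
    have i3 := cp_indep hp a b (c ⊓ d) e
    rw [comap_inf' (f1 (a ⊓ b)) c d] at i3
    have s1 := step_J hq i1 i2 i3
    have s2 := step_L hq i1
    have s3 := step_L hq i2
    have t1 := ih _ _ hq (a.comap (f1 (a ⊓ b))) (b.comap (f1 (a ⊓ b))) (c.comap (f1 (a ⊓ b)))
      (d.comap (f1 (a ⊓ b))) (c.comap (f1 (a ⊓ b)) ⊓ e.comap (f2 (a ⊓ b)))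
    have t2 := ih _ _ hq (a.comap (f1 (a ⊓ b))) (b.comap (f1 (a ⊓ b))) (c.comap (f1 (a ⊓ b)))
      (d.comap (f1 (a ⊓ b))) (d.comap (f1 (a ⊓ b)) ⊓ e.comap (f2 (a ⊓ b)))
    have eI : Ing (cp p (a ⊓ b)) (a.comap (f1 (a ⊓ b))) (b.comap (f1 (a ⊓ b)))
        (c.comap (f1 (a ⊓ b))) (d.comap (f1 (a ⊓ b))) = Ing p a b c d := by
      unfold Ing; simp only [← comap_inf' (f1 (a ⊓ b)), H_cp1 hp]
    have eL : ∀ c : Setoid Ω, L (cp p (a ⊓ b)) (a.comap (f1 (a ⊓ b))) (b.comap (f1 (a ⊓ b)))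
        (c.comap (f1 (a ⊓ b))) = L p a b c := by
      intro c; unfold L; simp only [← comap_inf' (f1 (a ⊓ b)), H_cp1 hp]
    have ea : a.comap (f1 (a ⊓ b)) = a.comap (f2 (a ⊓ b)) := comap_f12 inf_le_left
    have eb : b.comap (f1 (a ⊓ b)) = b.comap (f2 (a ⊓ b)) := comap_f12 inf_le_right
    have eLe : L (cp p (a ⊓ b)) (a.comap (f1 (a ⊓ b))) (b.comap (f1 (a ⊓ b)))
        (e.comap (f2 (a ⊓ b))) = L p a b e := by
      rw [ea, eb]; unfold L; simp only [← comap_inf' (f2 (a ⊓ b)), H_cp2 hp]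
    have eJe : J (cp p (a ⊓ b)) (a.comap (f1 (a ⊓ b))) (b.comap (f1 (a ⊓ b)))
        (e.comap (f2 (a ⊓ b))) = J p a b e := by
      rw [ea, eb]; unfold J; simp only [← comap_inf' (f2 (a ⊓ b)), H_cp2 hp]
    rw [eI, eLe, eJe] at s1
    rw [eLe, eL] at s2 s3
    rw [eI, eL, eL] at t1 t2
    have n1 := L_nonneg hp a b c
    have n2 := L_nonneg hp a b d
    have hs : (0 : ℝ) ≤ 2 ^ s - 1 := sub_nonneg.2 (one_le_pow₀ (by norm_num))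
    have hs' : (0 : ℝ) ≤ s := Nat.cast_nonneg s
    have m2 := mul_le_mul_of_nonneg_left s2 hs
    have m3 := mul_le_mul_of_nonneg_left s3 hs
    have m4 := mul_nonneg hs (add_nonneg n1 n2)
    have m5 := mul_nonneg hs' (add_nonneg n1 n2)
    push_cast
    rw [pow_succ]
    nlinarith

/-- the valid points of the slice -/
theorem valid (hp : Prob p) (a b c d : Setoid Ω) {s : ℕ} (hs : 1 ≤ s) :
    0 ≤ Ing p a b c d + ((s : ℝ) + 1) * (L p a b c + L p a b d) + 2 / 2 ^ s * J p a b c := by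
  have h := tree s Ω p hp a b c d c
  have n1 := L_nonneg hp a b c
  have n2 := L_nonneg hp a b d
  have n3 := J_nonneg hp a b c
  have h2 : (2 : ℝ) ≤ 2 ^ s := by
    calc (2 : ℝ) = 2 ^ 1 := by norm_num
      _ ≤ 2 ^ s := pow_le_pow_right₀ (by norm_num) hs
  have h3 : 1 ≤ (2 ^ s - 1) * (2 / 2 ^ s : ℝ) := by
    rw [← mul_div_assoc, le_div_iff₀ (by positivity)]; linarith
  refine le_of_mul_le_mul_left ?_ (by linarith : (0 : ℝ) < 2 ^ s - 1)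
  have h4 := mul_le_mul_of_nonneg_right h3 n3
  have h5 := mul_nonneg (by linarith : (0 : ℝ) ≤ 2 ^ s - 1) n2
  nlinarith

end Pool.Agent.H620Z.Ent
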